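import Pool.Agent.GTO.StmtsB

/-! Squad GTO, row DIJ. -/

set_option autoImplicit false

namespace Pool.Agent.GTO.H26

open Finset
open scoped Classical

theorem dij : DijStmt := by
  intro ι _ a c G _ φ H hC
  have hQ : ∀ i ∈ QQ a c φ H, Ns c (a i) := by
    intro i hi
    unfold QQ at hi
    exact (Finset.mem_filter.1 hi).2.1
  refine ⟨?_, ?_, ?_, ?_⟩
  · rw [Finset.disjoint_left]
    intro p h1 h2
    unfold MISo MM at h1
    unfold TANo at h2
    rw [Finset.mem_filter] at h1 h2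
    obtain ⟨-, h3, -, -, h4⟩ := h1
    have h5 := (Finset.mem_filter.1 h4).2 p.1 h3
    apply h5
    have h6 := h2.2.2.2.2
    have h7 : φ (a p.1) - (-φ (a p.1) - φ (a p.2)) = φ (a p.1) + φ (a p.1) + φ (a p.2) := by abel
    rw [h6] at h7
    exact sub_eq_zero.1 h7
  · rw [Finset.disjoint_left]
    intro p h1 h2
    unfold MISo MM at h1
    unfold TANs at h2
    rw [Finset.mem_filter] at h1 h2
    obtain ⟨-, -, h3, -, h4⟩ := h1
    have h5 := (Finset.mem_filter.1 h4).2 p.2 h3
    apply h5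
    have h6 := h2.2.2.2.2
    have h7 : φ (a p.2) - (-φ (a p.1) - φ (a p.2)) = φ (a p.2) + φ (a p.2) + φ (a p.1) := by abel
    rw [h6] at h7
    exact sub_eq_zero.1 h7
  · rw [Finset.disjoint_left]
    intro p h1 h2
    unfold TANo at h1
    unfold TANs at h2
    rw [Finset.mem_filter] at h1 h2
    obtain ⟨-, h3, h4, h5, h6⟩ := h1
    have h7 := h2.2.2.2.2
    have h8 : φ (a p.1) - φ (a p.2) =
        (φ (a p.1) + φ (a p.1) + φ (a p.2)) - (φ (a p.2) + φ (a p.2) + φ (a p.1)) := by abel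
    rw [h6, h7, sub_zero] at h8
    exact hC.pi p.1 p.2 h5 ((hC.grp.par _ _ (hQ _ h3) (hQ _ h4)).1 (sub_eq_zero.1 h8))
  · apply Finset.card_bij (fun p _ => (p.2, p.1))
    · intro p hp
      unfold TANs at hp
      unfold TANo
      rw [Finset.mem_filter] at hp ⊢
      obtain ⟨-, h3, h4, h5, h6⟩ := hp
      exact ⟨Finset.mem_univ _, h4, h3, h5.symm, h6⟩
    · intro p _ q _ h
      have h1 := congrArg Prod.fst h
      have h2 := congrArg Prod.snd h
      exact Prod.ext h2 h1
    · intro p hp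
      unfold TANo at hp
      rw [Finset.mem_filter] at hp
      obtain ⟨-, h3, h4, h5, h6⟩ := hp
      refine ⟨(p.2, p.1), ?_, rfl⟩
      unfold TANs
      rw [Finset.mem_filter]
      exact ⟨Finset.mem_univ _, h4, h3, h5.symm, h6⟩

end Pool.Agent.GTO.H26
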