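import Pool.Agent.GTO.StmtsB
import Pool.Agent.Helper49_GTO.Fin

/-! Squad GTO, row GRP: reformulation of helper49's group law. -/

namespace Pool.Agent.GTO.H26

theorem cr_symm_ne {u v : V} (h : cr u v ≠ 0) : cr v u ≠ 0 := by
  have e : cr v u = -cr u v := by
    ext k
    fin_cases k <;> simp [cr] <;> ring
  rw [e]
  exact neg_ne_zero.2 h

theorem grp : GrpStmt := by
  intro c hc
  obtain ⟨G, inst, φ, h1, h2, h3, h4, h5⟩ := H49.grpG c hc
  refine ⟨⟨G, inst, φ, ⟨h1, ?_, h3, h4⟩⟩, ⟨?_, ?_⟩⟩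
  · intro u v w hu hv hw huv hvw hwu
    exact h2 u v w hu hv hw huv (cr_symm_ne hwu) hvw
  · intro u v hu hv
    exact (H49.sngG c hc).1 u v hu.2.2 hv.2.2
  · intro q u v hq hu hv hqu hqv huv
    exact (H49.sngG c hc).2 q u v hq.2.2 hu hv hqu hqv huv

end Pool.Agent.GTO.H26
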